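import Pool.Agent.Run7.h677.PS.Stm

set_option autoImplicit false

/-! Piece PARA of the project PS (MP_c3eb34_co). -/

namespace Pool.Agent.Run7.h677.PS

open Filter Topology

/-- a two-dimensional space has a nonzero element which vanishes in a given point -/
lemma PARA_ex_zero {α : Type} [Fintype α] (W : Submodule ℝ (α → ℝ)) (h2 : Module.finrank ℝ W = 2)
    (w : α) : ∃ ν ∈ W, ν ≠ 0 ∧ ν w = 0 := by
  let f : W →ₗ[ℝ] ℝ := (LinearMap.proj w : (α → ℝ) →ₗ[ℝ] ℝ).comp W.subtype
  have h : LinearMap.ker f ≠ ⊥ := by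
    apply LinearMap.ker_ne_bot_of_finrank_lt
    rw [h2, Module.finrank_self]
    norm_num
  obtain ⟨x, hx, hx0⟩ := (Submodule.ne_bot_iff _).1 h
  refine ⟨x, x.2, fun h => hx0 (Subtype.ext h), ?_⟩
  exact LinearMap.mem_ker.1 hx

theorem t_PARA : S_PARA := by
  intro α _ _ W hc h2 hz
  classical
  -- a second index
  have hother : ∀ v : α, ∃ w, w ≠ v := by
    intro v
    have : Nontrivial α := Fintype.one_lt_card_iff_nontrivial.1 (by omega)
    exact exists_ne v
  by_cases hpos : ∃ μ0 ∈ W, ∀ i, 0 < μ0 i
  swap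
  · -- the set is empty
    have hem : {v : α | ∃ μ ∈ W, μ ≠ 0 ∧ (∀ i, 0 ≤ μ i) ∧ μ v = 0} = ∅ := by
      rw [Set.eq_empty_iff_forall_notMem]
      rintro v ⟨μ, hμ, hμ0, hμn, hμv⟩
      apply hpos
      obtain ⟨w, hw⟩ := hother v
      obtain ⟨ν0, hν0, hν0n, hν0w⟩ := PARA_ex_zero W h2 w
      have hν0v : ν0 v ≠ 0 := hz ν0 hν0 hν0n w v hw hν0w
      obtain ⟨ν, hν, hνv⟩ : ∃ ν ∈ W, 0 < ν v := by
        rcases lt_or_gt_of_ne hν0v with h | h
        · exact ⟨-ν0, W.neg_mem hν0, by simpa using h⟩
        · exact ⟨ν0, hν0, h⟩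
      have hev : ∀ᶠ t : ℝ in 𝓝[>] 0, ∀ i, 0 < μ i + t * ν i := by
        rw [eventually_all]
        intro i
        by_cases hi : i = v
        · subst hi
          filter_upwards [self_mem_nhdsWithin] with t ht
          rw [hμv, zero_add]
          exact mul_pos ht hνv
        · have hμi : 0 < μ i := lt_of_le_of_ne (hμn i) (hz μ hμ hμ0 v i (Ne.symm hi) hμv).symm
          have hcont : Tendsto (fun t : ℝ => μ i + t * ν i) (𝓝 0) (𝓝 (μ i + 0 * ν i)) :=
            Continuous.tendsto (by fun_prop) 0
          rw [zero_mul, add_zero] at hcont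
          exact (hcont.eventually (lt_mem_nhds hμi)).filter_mono nhdsWithin_le_nhds
      obtain ⟨t, ht⟩ := hev.exists
      exact ⟨μ + t • ν, W.add_mem hμ (W.smul_mem t hν), fun i => by simpa using ht i⟩
    rw [hem, Set.ncard_empty]
    exact Even.zero
  · obtain ⟨μ0, hμ0, hp⟩ := hpos
    have hne : Nonempty α := Fintype.card_pos_iff.1 (by omega)
    obtain ⟨w⟩ := hne
    obtain ⟨i0, hi0⟩ := hother w
    obtain ⟨μ', hμ', hμ'n, hμ'w⟩ := PARA_ex_zero W h2 w
    have hμ'i : μ' i0 ≠ 0 := hz μ' hμ' hμ'n w i0 hi0.symm hμ'w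
    -- a basis
    have hbas : ∀ μ ∈ W, ∃ a b : ℝ, ∀ j, μ j = a * μ0 j + b * μ' j := by
      intro μ hμ
      refine ⟨μ w / μ0 w, (μ i0 - μ w / μ0 w * μ0 i0) / μ' i0, ?_⟩
      by_contra hcon
      have hmem : μ - (μ w / μ0 w) • μ0 - ((μ i0 - μ w / μ0 w * μ0 i0) / μ' i0) • μ' ∈ W :=
        W.sub_mem (W.sub_mem hμ (W.smul_mem _ hμ0)) (W.smul_mem _ hμ')
      have hnz : μ - (μ w / μ0 w) • μ0 - ((μ i0 - μ w / μ0 w * μ0 i0) / μ' i0) • μ' ≠ 0 := by
        intro h0
        apply hcon
        intro j
        have := congrFun h0 j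
        simp only [Pi.sub_apply, Pi.smul_apply, smul_eq_mul, Pi.zero_apply] at this
        linarith
      have hp0 := (hp w).ne'
      refine hz _ hmem hnz w i0 hi0.symm ?_ ?_
      · simp only [Pi.sub_apply, Pi.smul_apply, smul_eq_mul, hμ'w]
        field_simp
        ring
      · simp only [Pi.sub_apply, Pi.smul_apply, smul_eq_mul]
        field_simp
        ring
    let r : α → ℝ := fun j => - μ' j / μ0 j
    have hr : ∀ a b : ℝ, ∀ j, a * μ0 j + b * μ' j = μ0 j * (a - b * r j) := by
      intro a b j
      have := (hp j).ne'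
      simp only [r]
      field_simp
      ring
    -- nonzero elements
    have hnz : ∀ a b : ℝ, b ≠ 0 → a • μ0 + b • μ' ≠ 0 := by
      intro a b hb h0
      have h1 := congrFun h0 w
      simp only [Pi.add_apply, Pi.smul_apply, smul_eq_mul, hμ'w, Pi.zero_apply, mul_zero,
        add_zero] at h1
      have ha : a = 0 := by
        rcases mul_eq_zero.1 h1 with h | h
        · exact h
        · exact absurd h (hp w).ne'
      have h2 := congrFun h0 i0
      simp only [Pi.add_apply, Pi.smul_apply, smul_eq_mul, ha, Pi.zero_apply, zero_mul,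
        zero_add] at h2
      rcases mul_eq_zero.1 h2 with h | h
      · exact hb h
      · exact hμ'i h
    have hrinj : Function.Injective r := by
      intro j k hjk
      by_contra hne
      have hmem : r j • μ0 + (1:ℝ) • μ' ∈ W := W.add_mem (W.smul_mem _ hμ0) (W.smul_mem _ hμ')
      refine hz _ hmem (hnz _ _ one_ne_zero) j k hne ?_ ?_
      · simp only [Pi.add_apply, Pi.smul_apply, smul_eq_mul]
        rw [hr]
        simp
      · simp only [Pi.add_apply, Pi.smul_apply, smul_eq_mul]
        rw [hr, hjk]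
        simp
    have hne : Nonempty α := ⟨w⟩
    obtain ⟨vM, hvM⟩ := Finite.exists_max r
    obtain ⟨vm, hvm⟩ := Finite.exists_min r
    have hvv : vM ≠ vm := by
      intro h
      subst h
      have h1 : r w = r i0 := le_antisymm
        ((hvM w).trans (hvm i0)) ((hvM i0).trans (hvm w))
      exact hi0 (hrinj h1).symm
    have hset : {v : α | ∃ μ ∈ W, μ ≠ 0 ∧ (∀ i, 0 ≤ μ i) ∧ μ v = 0} = {vM, vm} := by
      ext v
      simp only [Set.mem_ofPred_eq, Set.mem_insert_iff, Set.mem_singleton_iff]
      constructor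
      · rintro ⟨μ, hμ, hμn, hμp, hμv⟩
        obtain ⟨a, b, hab⟩ := hbas μ hμ
        have hge : ∀ j, 0 ≤ a - b * r j := by
          intro j
          have := hμp j
          rw [hab, hr] at this
          exact nonneg_of_mul_nonneg_right this (hp j)
        have ha : a = b * r v := by
          rw [hab, hr] at hμv
          rcases mul_eq_zero.1 hμv with h | h
          · exact absurd h (hp v).ne'
          · linarith
        have hb : b ≠ 0 := by
          rintro rfl
          apply hμn
          funext j
          rw [hab, ha]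
          simp
        rcases lt_or_gt_of_ne hb with hb | hb
        · right
          apply hrinj
          refine le_antisymm ?_ (hvm v)
          have := hge vm
          rw [ha] at this
          nlinarith
        · left
          apply hrinj
          refine le_antisymm (hvM v) ?_
          have := hge vM
          rw [ha] at this
          nlinarith
      · rintro (rfl | rfl)
        · refine ⟨r v • μ0 + (1:ℝ) • μ', W.add_mem (W.smul_mem _ hμ0) (W.smul_mem _ hμ'),
            hnz _ _ one_ne_zero, fun j => ?_, ?_⟩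
          · simp only [Pi.add_apply, Pi.smul_apply, smul_eq_mul]
            rw [hr]
            exact mul_nonneg (hp j).le (by linarith [hvM j])
          · simp only [Pi.add_apply, Pi.smul_apply, smul_eq_mul]
            rw [hr]
            simp
        · refine ⟨(-r v) • μ0 + (-1:ℝ) • μ', W.add_mem (W.smul_mem _ hμ0) (W.smul_mem _ hμ'),
            hnz _ _ (by norm_num), fun j => ?_, ?_⟩
          · simp only [Pi.add_apply, Pi.smul_apply, smul_eq_mul]
            rw [hr]
            exact mul_nonneg (hp j).le (by linarith [hvm j])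
          · simp only [Pi.add_apply, Pi.smul_apply, smul_eq_mul]
            rw [hr]
            simp
    rw [hset, Set.ncard_pair hvv]
    exact even_two

end Pool.Agent.Run7.h677.PS
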